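import Pool.Agent.Lib.MP_305fdd_al.VF.I.Stm

/-!
# MP_305fdd_al, block VF, part (I): proof of [VF I2]
-/

set_option autoImplicit false

namespace Pool.Agent.VF

open Monoid Monoid.CoprodI Pool.Agent.MP_305fdd_al Pool.Agent.Lib.MP_305fdd_al Pool.Agent.FrT

theorem p_CF : S_CF := by
  classical
  intro ι G _ i y y' g hy hg
  set p := Word.equivPair i (Word.equiv g⁻¹) with hp
  have hrc : Word.rcons p = Word.equiv g⁻¹ := by
    rw [← Word.equivPair_symm, hp, Equiv.symm_apply_apply]
  have hprod : (Word.equiv g⁻¹).prod = g⁻¹ := Word.equiv.symm_apply_apply g⁻¹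
  have hginv : g⁻¹ = of p.head * p.tail.prod := by
    rw [← Word.prod_rcons, hrc, hprod]
  by_cases ht : p.tail = Word.empty
  · refine ⟨p.head⁻¹, ?_⟩
    rw [ht, Word.prod_empty, mul_one] at hginv
    rw [map_inv, ← hginv, inv_inv]
  · exfalso
    obtain ⟨k, l, w', hw'⟩ := NeWord.of_word p.tail ht
    have hki : k ≠ i := by
      intro h
      apply p.fstIdx_ne
      rw [← hw']
      change (w'.toList.head?).map Sigma.fst = some i
      rw [NeWord.toList_head?, Option.map_some]
      exact congrArg some h
    have hy2 : p.head⁻¹ * y * p.head ≠ 1 := by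
      intro h
      apply hy
      have h2 : y = p.head * (p.head⁻¹ * y * p.head) * p.head⁻¹ := by group
      rw [h2, h]
      group
    have hv : w'.prod = p.tail.prod := by
      change w'.toWord.prod = _
      rw [hw']
    let N : NeWord G l l := NeWord.append (NeWord.append w'.inv hki
      (NeWord.singleton (p.head⁻¹ * y * p.head) hy2)) hki.symm w'
    have hN : N.prod = of y' := by
      rw [NeWord.append_prod, NeWord.append_prod, NeWord.prod_singleton, NeWord.inv_prod, hv, ← hg]
      have hg2 : g = (p.tail.prod)⁻¹ * (of p.head)⁻¹ := by
        rw [← mul_inv_rev, ← hginv, inv_inv]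
      rw [hginv]
      rw [hg2]
      rw [map_mul, map_mul, map_inv]
      group
    have hlen : 3 ≤ N.toWord.toList.length := by
      change 3 ≤ ((w'.inv.toList ++ [(⟨i, p.head⁻¹ * y * p.head⟩ : Σ i, G i)]) ++ w'.toList).length
      rw [List.length_append, List.length_append, List.length_singleton]
      have h1 := List.length_pos_iff.2 (NeWord.toList_ne_nil w'.inv)
      have h2 := List.length_pos_iff.2 (NeWord.toList_ne_nil w')
      omega
    have hinj : Function.Injective (Word.prod : Word G → CoprodI G) := Word.equiv.symm.injective
    by_cases hy' : y' = 1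
    · have h1 : N.toWord = Word.empty := by
        apply hinj
        change N.prod = _
        rw [hN, hy', map_one, Word.prod_empty]
      rw [h1] at hlen
      have h2 : (Word.empty : Word G).toList.length = 0 := rfl
      rw [h2] at hlen
      omega
    · have h1 : N.toWord = (NeWord.singleton y' hy').toWord := by
        apply hinj
        change N.prod = (NeWord.singleton y' hy').prod
        rw [hN, NeWord.prod_singleton]
      rw [h1] at hlen
      have h2 : (NeWord.singleton y' hy').toWord.toList.length = 1 := rfl
      rw [h2] at hlen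
      omega

end Pool.Agent.VF
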