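import Pool.Agent.Lib.MP_305fdd_al.VF.I.Stm

/-!
# MP_305fdd_al, block VF, part (I): piece FF
-/

set_option autoImplicit false

namespace Pool.Agent.VF

open Monoid Pool.Agent.MP_305fdd_al Pool.Agent.Lib.MP_305fdd_al Pool.Agent.FrT

theorem p_FF (h1 : S_TC) (h2 : S_CF) : S_FF := by
  constructor
  · rintro B _ ⟨n, m, ⟨e0⟩⟩ x hx hfin
    have hx' : e0 x ≠ 1 := fun h => hx (e0.injective (h.trans (map_one e0).symm))
    have hfin' : IsOfFinOrder (e0 x) := by
      have := MonoidHom.isOfFinOrder e0.toMonoidHom hfin
      exact this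
    obtain ⟨i, y, g, hg⟩ := h1 (Fin n) (fun i => Multiplicative (ZMod (m i))) (e0 x) hx' hfin'
    have hy : y ≠ 1 := by
      rintro rfl
      apply hx'
      rw [hg, map_one, mul_one, mul_inv_cancel]
    let e' : FP m ≃* B := (MulAut.conj g).trans e0.symm
    have he' : ∀ z, e' z = e0.symm (g * z * g⁻¹) := fun z => rfl
    have hxy : e' (CoprodI.of (M := fun k => Multiplicative (ZMod (m k))) y) = x := by
      rw [he', ← hg, MulEquiv.symm_apply_apply]
    refine ⟨n, m, e', i, ?_⟩
    intro b
    rw [Subgroup.mem_centralizer_singleton_iff]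
    constructor
    · intro hb
      have h3 : e'.symm b * (CoprodI.of (M := fun k => Multiplicative (ZMod (m k))) y) * (e'.symm b)⁻¹ = (CoprodI.of (M := fun k => Multiplicative (ZMod (m k))) y) := by
        apply e'.injective
        rw [map_mul, map_mul, map_inv, MulEquiv.apply_symm_apply, hxy]
        rw [mul_inv_eq_iff_eq_mul]
        first
        | exact hb
        | exact hb.symm
      obtain ⟨c, hc⟩ := h2 (Fin n) (fun i => Multiplicative (ZMod (m i))) i y y (e'.symm b) hy h3
      exact ⟨c, by rw [← hc, MulEquiv.apply_symm_apply]⟩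
    · rintro ⟨c, rfl⟩
      rw [← hxy, ← map_mul, ← map_mul, ← map_mul, ← map_mul, mul_comm c y]
  · rintro B _ ⟨n, m, ⟨e0⟩⟩
    let m' : Fin (n + 1) → ℕ := Fin.cons 1 m
    obtain ⟨e1⟩ := coprodI_equiv (A := fun i => Multiplicative (ZMod (m i)))
      (B := fun j => Multiplicative (ZMod (m' j))) (Fin.succ : Fin n → Fin (n + 1))
      (Fin.succ_injective n) (fun i => MulEquiv.refl (Multiplicative (ZMod (m i)))) (by
        intro j hj
        have hj0 : j = 0 := by
          by_contra hne
          exact hj ⟨j.pred hne, Fin.succ_pred j hne⟩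
        subst hj0
        show Subsingleton (ZMod 1)
        infer_instance)
    refine ⟨n + 1, m', e1.symm.trans e0.symm, 0, ?_⟩
    intro y
    rw [Subgroup.mem_bot]
    have hsub : ∀ c : Multiplicative (ZMod (m' 0)), c = 1 := by
      intro c
      have : Subsingleton (Multiplicative (ZMod (m' 0))) := by
        show Subsingleton (ZMod 1)
        infer_instance
      exact Subsingleton.elim _ _
    constructor
    · rintro rfl
      exact ⟨1, by rw [map_one, map_one]⟩
    · rintro ⟨c, rfl⟩
      rw [hsub c, map_one, map_one]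

end Pool.Agent.VF
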