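import Pool.Agent.Lib.MP_305fdd_al.VF.I.Stm

/-!
# MP_305fdd_al, block VF, part (I): proof of [VF I1]
-/

set_option autoImplicit false

namespace Pool.Agent.VF

open Monoid Monoid.CoprodI Pool.Agent.MP_305fdd_al Pool.Agent.Lib.MP_305fdd_al Pool.Agent.FrT

namespace TC

variable {ι : Type} {G : ι → Type} [∀ i, Group (G i)]

section len

variable [DecidableEq ι] [∀ i, DecidableEq (G i)]

omit [DecidableEq ι] in
theorem le_rcons {i : ι} (p : Word.Pair G i) :
    p.tail.toList.length ≤ (Word.rcons p).toList.length := by
  unfold Word.rcons
  split_ifs
  · exact le_rfl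
  · exact (Nat.le_succ _)

omit [DecidableEq ι] in
theorem rcons_le {i : ι} (p : Word.Pair G i) :
    (Word.rcons p).toList.length ≤ p.tail.toList.length + 1 := by
  unfold Word.rcons
  split_ifs
  · exact Nat.le_succ _
  · exact le_rfl

theorem smul_le {i : ι} (m : G i) (w : Word G) :
    (of m • w).toList.length ≤ w.toList.length + 1 := by
  rw [Word.of_smul_def]
  refine (rcons_le _).trans (Nat.succ_le_succ ?_)
  have h := le_rcons (Word.equivPair i w)
  rw [← Word.equivPair_symm, Equiv.symm_apply_apply] at h
  exact h

theorem equiv_le (L : List (Σ i, G i)) :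
    (Word.equiv (L.map fun l => of l.snd).prod).toList.length ≤ L.length := by
  induction L with
  | nil =>
    rw [List.map_nil, List.prod_nil]
    change ((1 : CoprodI G) • (Word.empty : Word G)).toList.length ≤ 0
    rw [one_smul]
    exact le_rfl
  | cons l L ih =>
    rw [List.map_cons, List.prod_cons]
    change ((of l.snd * (L.map fun l => of l.snd).prod) • (Word.empty : Word G)).toList.length ≤ _
    rw [mul_smul]
    exact (smul_le _ _).trans (Nat.succ_le_succ ih)

end len

/-- the powers of a reduced word with different ends -/
def pw {i j : ι} (h : j ≠ i) (w : NeWord G i j) : ℕ → NeWord G i j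
  | 0 => w
  | n + 1 => NeWord.append (pw h w n) h w

theorem pw_prod {i j : ι} (h : j ≠ i) (w : NeWord G i j) (n : ℕ) :
    (pw h w n).prod = w.prod ^ (n + 1) := by
  induction n with
  | zero => rw [zero_add, pow_one]; rfl
  | succ n ih =>
    change (NeWord.append (pw h w n) h w).prod = _
    rw [NeWord.append_prod, ih, ← pow_succ]

theorem prod_ne_one {i j : ι} (w : NeWord G i j) : w.prod ≠ 1 := by
  classical
  intro h
  have h1 : w.toWord = Word.empty := by
    have h2 : Word.prod w.toWord = Word.prod (Word.empty : Word G) := h
    exact (Word.equiv (M := G)).symm.injective h2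
  exact w.toList_ne_nil (congrArg Word.toList h1)

theorem not_tors {i j : ι} (h : j ≠ i) (w : NeWord G i j) : ¬ IsOfFinOrder w.prod := by
  rw [isOfFinOrder_iff_pow_eq_one]
  rintro ⟨n, hn, h1⟩
  obtain ⟨k, rfl⟩ : ∃ k, n = k + 1 := ⟨n - 1, by omega⟩
  rw [← pw_prod h] at h1
  exact prod_ne_one _ h1

/-- the main induction -/
theorem main [DecidableEq ι] [∀ i, DecidableEq (G i)] (n : ℕ) : ∀ x : CoprodI G,
    (Word.equiv x).toList.length ≤ n → x ≠ 1 → IsOfFinOrder x →
    ∃ (i : ι) (y : G i) (g : CoprodI G), x = g * CoprodI.of y * g⁻¹ := by
  induction n with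
  | zero =>
    intro x hx h1 _
    exfalso
    apply h1
    have h2 : (Word.equiv x).toList = [] := List.eq_nil_of_length_eq_zero (Nat.le_zero.1 hx)
    have h3 : x = Word.prod (Word.equiv x) := (Word.equiv.symm_apply_apply x).symm
    rw [h3, Word.prod, h2]
    rfl
  | succ n ih =>
    intro x hx h1 hf
    have h3 : Word.prod (Word.equiv x) = x := Word.equiv.symm_apply_apply x
    have hne : Word.equiv x ≠ Word.empty := by
      intro h
      apply h1
      rw [← h3, h]
      rfl
    obtain ⟨i, j, w, hw⟩ := NeWord.of_word (Word.equiv x) hne
    have hwx : w.prod = x := by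
      change Word.prod w.toWord = x
      rw [hw, h3]
    by_cases hij : j = i
    · subst hij
      have hL : (Word.equiv x).toList = w.toList := by rw [← hw]; rfl
      have hhd := w.toList_head?
      have hlt := w.toList_getLast?
      rw [← hL] at hhd hlt
      have hx' : ((Word.equiv x).toList.map fun l => of l.snd).prod = x := h3
      generalize (Word.equiv x).toList = L at hhd hlt hx' hx
      rcases L with _ | ⟨s, L⟩
      · simp at hhd
      · have hs : s = ⟨j, w.head⟩ := by simpa using hhd
        rcases List.eq_nil_or_concat L with rfl | ⟨L', t, rfl⟩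
        · refine ⟨j, w.head, 1, ?_⟩
          rw [← hx', hs]
          simp
        · have ht : t = ⟨j, w.last⟩ := by
            have h4 : (s :: (L'.concat t)).getLast? = some t := by
              rw [List.concat_eq_append, ← List.cons_append, List.getLast?_concat]
            rw [h4] at hlt
            simpa using hlt
          subst hs ht
          have hx2 : x = of w.head * (L'.map fun l => of l.snd).prod * of w.last := by
            rw [← hx']
            simp [List.concat_eq_append, mul_assoc]
          have hx3 : (of w.head)⁻¹ * x * of w.head =
              ((L' ++ [(⟨j, w.last * w.head⟩ : Σ i, G i)]).map fun l => of l.snd).prod := by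
            rw [hx2]
            simp [mul_assoc]
          have hx4 : (Word.equiv ((of w.head)⁻¹ * x * of w.head)).toList.length ≤ n := by
            rw [hx3]
            refine (equiv_le _).trans ?_
            have : (L'.concat (⟨j, w.last⟩ : Σ i, G i)).length = L'.length + 1 := by simp
            simp only [List.length_cons, this] at hx
            simp only [List.length_append, List.length_cons, List.length_nil]
            omega
          have hconj : ∀ z : CoprodI G, (of w.head)⁻¹ * z * of w.head =
              MulAut.conj ((of w.head : CoprodI G)⁻¹) z := by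
            intro z
            simp [MulAut.conj_apply]
          obtain ⟨i', y, g, hg⟩ := ih _ hx4 (by
            rw [hconj]
            intro h
            exact h1 ((MulEquiv.map_eq_one_iff _).1 h)) (by
            rw [hconj]
            exact MonoidHom.isOfFinOrder (MulAut.conj ((of w.head : CoprodI G)⁻¹)).toMonoidHom hf)
          refine ⟨i', y, of w.head * g, ?_⟩
          have h5 : x = of w.head * ((of w.head)⁻¹ * x * of w.head) * (of w.head)⁻¹ := by group
          rw [h5, hg]
          group
    · exfalso
      apply not_tors hij w
      rw [hwx]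
      exact hf

end TC

theorem p_TC : S_TC := by
  classical
  intro ι G _ x hx hf
  exact TC.main _ x le_rfl hx hf

end Pool.Agent.VF
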