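import Pool.Agent.Lib.MP_305fdd_al.VF.I.Stm

set_option autoImplicit false

namespace Pool.Agent.VF

open Monoid Pool.Agent.MP_305fdd_al Pool.Agent.Lib.MP_305fdd_al Pool.Agent.FrT

/-- the free product of the other factors -/
private abbrev Bq {n : ℕ} (m : Fin n → ℕ) (i : Fin n) : Type :=
  CoprodI fun k : {k : Fin n // k ≠ i} => Multiplicative (ZMod (m k))

theorem p_am (hcl : S_cl) : S_am := by
  intro V _ A B E hAm hA hF
  obtain ⟨n, m, e, i, hE⟩ := hF
  obtain ⟨h1, h2, h3, -, -⟩ := hcl
  obtain ⟨s, hs1, hs2⟩ := h1 (Fin n) (fun k => Multiplicative (ZMod (m k))) i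
  have hEm : ∀ c : Multiplicative (ZMod (m i)), ((e (CoprodI.of (M := fun k => Multiplicative (ZMod (m k))) (i := i) c) : B) : V) ∈ E := fun c => by
    have := (hE (e (CoprodI.of (M := fun k => Multiplicative (ZMod (m k))) (i := i) c))).2 ⟨c, rfl⟩
    exact Subgroup.mem_subgroupOf.1 this
  let jA : Multiplicative (ZMod (m i)) →* A :=
    { toFun := fun c => ⟨((e (CoprodI.of (M := fun k => Multiplicative (ZMod (m k))) (i := i) c) : B) : V), hAm.le1 (hEm c)⟩
      map_one' := Subtype.ext (by simp)
      map_mul' := fun a b => Subtype.ext (by simp) }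
  let p : Bq m i →* B := e.toMonoidHom.comp (s.symm.toMonoidHom.comp Coprod.inr)
  let F : Coprod A (Bq m i) →* V := Coprod.lift A.subtype (B.subtype.comp p)
  let lf : Coprod (Multiplicative (ZMod (m i))) (Bq m i) →* Coprod A (Bq m i) :=
    Coprod.lift (Coprod.inl.comp jA) Coprod.inr
  let gB : B →* Coprod A (Bq m i) := lf.comp
    (s.toMonoidHom.comp e.symm.toMonoidHom)
  obtain ⟨H, HA, HB⟩ := hAm.ext (Coprod A (Bq m i)) Coprod.inl gB (by
    intro x hx
    have h4 : (⟨x, hAm.le2 hx⟩ : B) ∈ E.subgroupOf B := Subgroup.mem_subgroupOf.2 hx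
    obtain ⟨c, hc⟩ := (hE _).1 h4
    have h5 : gB ⟨x, hAm.le2 hx⟩ = Coprod.inl (jA c) := by
      rw [hc]
      change lf (s (e.symm (e (CoprodI.of (M := fun k => Multiplicative (ZMod (m k))) (i := i) c)))) = _
      rw [e.symm_apply_apply, hs1]
      exact Coprod.lift_apply_inl _ _ _
    rw [h5]
    congr 1
    have h6 : x = ((e (CoprodI.of (M := fun k => Multiplicative (ZMod (m k))) (i := i) c) : B) : V) := congrArg Subtype.val hc
    exact Subtype.ext h6)
  have hFA : ∀ a : A, F (H a) = a := fun a => by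
    rw [HA]
    exact Coprod.lift_apply_inl _ _ _
  have hgB : ∀ z : Coprod (Multiplicative (ZMod (m i))) (Bq m i), gB (e (s.symm z)) =
      lf z := fun z => by
    change lf (s (e.symm (e (s.symm z)))) = _
    rw [e.symm_apply_apply, s.apply_symm_apply]
  have hFB : ∀ b : B, F (H b) = b := fun b => by
    rw [HB]
    have key : (F.comp gB).comp (e.toMonoidHom.comp s.symm.toMonoidHom) =
        B.subtype.comp (e.toMonoidHom.comp s.symm.toMonoidHom) := by
      refine Coprod.hom_ext (MonoidHom.ext fun c => ?_) (MonoidHom.ext fun z => ?_)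
      · change F (gB (e (s.symm (Coprod.inl c)))) = ((e (s.symm (Coprod.inl c)) : B) : V)
        rw [hgB, show lf (Coprod.inl c) = Coprod.inl (jA c) from Coprod.lift_apply_inl _ _ _]
        have h6 : s.symm (Coprod.inl c) =
            CoprodI.of (M := fun k => Multiplicative (ZMod (m k))) (i := i) c := by
          rw [MulEquiv.symm_apply_eq, hs1]
        rw [h6]
        exact Coprod.lift_apply_inl _ _ _
      · change F (gB (e (s.symm (Coprod.inr z)))) = ((e (s.symm (Coprod.inr z)) : B) : V)
        rw [hgB, show lf (Coprod.inr z) = Coprod.inr z from Coprod.lift_apply_inr _ _ _]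
        exact Coprod.lift_apply_inr _ _ _
    have h7 := DFunLike.congr_fun key (s (e.symm b))
    change F (gB (e (s.symm (s (e.symm b))))) = ((e (s.symm (s (e.symm b))) : B) : V) at h7
    rwa [s.symm_apply_apply, e.apply_symm_apply] at h7
  have hFH : ∀ v : V, F (H v) = v := by
    have h8 : (A ⊔ B : Subgroup V) ≤ MonoidHom.eqLocus (F.comp H) (MonoidHom.id V) :=
      sup_le (fun a ha => hFA ⟨a, ha⟩) (fun b hb => hFB ⟨b, hb⟩)
    rw [hAm.gen] at h8
    exact fun v => h8 (Subgroup.mem_top v)
  have hHF : H.comp F = MonoidHom.id _ := by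
    refine Coprod.hom_ext (MonoidHom.ext fun a => ?_) (MonoidHom.ext fun z => ?_)
    · change H (F (Coprod.inl a)) = Coprod.inl a
      have : F (Coprod.inl a) = (a : V) := Coprod.lift_apply_inl _ _ _
      rw [this, HA]
    · change H (F (Coprod.inr z)) = Coprod.inr z
      have : F (Coprod.inr z) = ((e (s.symm (Coprod.inr z)) : B) : V) :=
        Coprod.lift_apply_inr _ _ _
      rw [this, HB, hgB]
      exact Coprod.lift_apply_inr _ _ _
  let eq : V ≃* Coprod A (Bq m i) :=
    { toFun := H
      invFun := F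
      left_inv := hFH
      right_inv := fun x => DFunLike.congr_fun hHF x
      map_mul' := H.map_mul }
  obtain ⟨n', m', ⟨f⟩⟩ := h2 A (Bq m i) hA (h3 n m i)
  exact ⟨n', m', ⟨eq.trans f⟩⟩

end Pool.Agent.VF
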