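import Pool.Agent.Lib.MP_305fdd_al.VF.I.Stm

/-!
# MP_305fdd_al, block VF, part (I): [VF I4] splitting off a factor, closure properties of `IsFP`
-/

set_option autoImplicit false

namespace Pool.Agent.VF

open Monoid Pool.Agent.MP_305fdd_al Pool.Agent.Lib.MP_305fdd_al Pool.Agent.FrT

namespace cl

/-- transport of the factor along an equality of indices -/
def cst {ι : Type} {G : ι → Type} [∀ i, Group (G i)] {k i : ι} (h : k = i) : G k →* G i := by
  subst h
  exact MonoidHom.id _

open Classical in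
/-- the components of the splitting -/
noncomputable def ph {ι : Type} (G : ι → Type) [∀ i, Group (G i)] (i k : ι) :
    G k →* Coprod (G i) (CoprodI fun k : {k : ι // k ≠ i} => G k) :=
  if h : k = i then (Coprod.inl).comp (cst h)
  else (Coprod.inr).comp (CoprodI.of (M := fun k : {k : ι // k ≠ i} => G k) (i := ⟨k, h⟩))

theorem ph_pos {ι : Type} (G : ι → Type) [∀ i, Group (G i)] (i : ι) :
    ph G i i = Coprod.inl := by
  unfold ph
  rw [dif_pos rfl]
  rfl

theorem ph_neg {ι : Type} (G : ι → Type) [∀ i, Group (G i)] (i : ι)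
    (k : {k : ι // k ≠ i}) :
    ph G i k = (Coprod.inr).comp
      (CoprodI.of (M := fun k : {k : ι // k ≠ i} => G k) (i := k)) := by
  unfold ph
  rw [dif_neg k.2]

/-- the inverse map -/
noncomputable def bk {ι : Type} (G : ι → Type) [∀ i, Group (G i)] (i : ι) :
    Coprod (G i) (CoprodI fun k : {k : ι // k ≠ i} => G k) →* CoprodI G :=
  Coprod.lift (CoprodI.of (i := i))
    (CoprodI.lift fun k : {k : ι // k ≠ i} => CoprodI.of (M := G) (i := k.1))

theorem split {ι : Type} (G : ι → Type) [∀ i, Group (G i)] (i : ι) :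
    ∃ s : CoprodI G ≃* Coprod (G i) (CoprodI fun k : {k : ι // k ≠ i} => G k),
      (∀ x : G i, s (CoprodI.of x) = Coprod.inl x) ∧
      ∀ (k : {k : ι // k ≠ i}) (x : G k), s (CoprodI.of x) =
        Coprod.inr (CoprodI.of (M := fun k : {k : ι // k ≠ i} => G k) (i := k) x) := by
  refine ⟨MonoidHom.toMulEquiv (CoprodI.lift (ph G i)) (bk G i) ?_ ?_, ?_, ?_⟩
  · apply CoprodI.ext_hom
    intro k
    rw [MonoidHom.comp_assoc, CoprodI.lift_comp_of, MonoidHom.id_comp]
    by_cases h : k = i
    · subst h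
      rw [ph_pos]
      exact Coprod.lift_comp_inl _ _
    · have h1 := ph_neg G i ⟨k, h⟩
      change ph G i k = _ at h1
      rw [h1, ← MonoidHom.comp_assoc]
      unfold bk
      rw [Coprod.lift_comp_inr]
      exact CoprodI.lift_comp_of _ _
  · apply Coprod.hom_ext
    · rw [MonoidHom.comp_assoc]
      unfold bk
      rw [Coprod.lift_comp_inl, CoprodI.lift_comp_of, ph_pos, MonoidHom.id_comp]
    · rw [MonoidHom.comp_assoc]
      unfold bk
      rw [Coprod.lift_comp_inr, MonoidHom.id_comp]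
      apply CoprodI.ext_hom
      intro k
      rw [MonoidHom.comp_assoc, CoprodI.lift_comp_of, CoprodI.lift_comp_of, ph_neg]
  · intro x
    show CoprodI.lift (ph G i) (CoprodI.of x) = _
    rw [CoprodI.lift_of, ph_pos]
  · intro k x
    show CoprodI.lift (ph G i) (CoprodI.of x) = _
    rw [CoprodI.lift_of, ph_neg]
    rfl

/-- free product of two free products of cyclic groups -/
theorem two {n n' : ℕ} (m : Fin n → ℕ) (m' : Fin n' → ℕ) :
    Nonempty (Coprod (FP m) (FP m') ≃* FP (Sum.elim m m')) := by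
  let G : Fin n ⊕ Fin n' → Type := fun i => Multiplicative (ZMod (Sum.elim m m' i))
  let f : Coprod (FP m) (FP m') →* FP (Sum.elim m m') :=
    Coprod.lift (CoprodI.lift fun i => CoprodI.of (M := G) (i := Sum.inl i))
      (CoprodI.lift fun i => CoprodI.of (M := G) (i := Sum.inr i))
  let g : FP (Sum.elim m m') →* Coprod (FP m) (FP m') :=
    CoprodI.lift fun x => match x with
      | Sum.inl i => (Coprod.inl).comp
          (CoprodI.of (M := fun i : Fin n => Multiplicative (ZMod (m i))) (i := i))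
      | Sum.inr i => (Coprod.inr).comp
          (CoprodI.of (M := fun i : Fin n' => Multiplicative (ZMod (m' i))) (i := i))
  refine ⟨MonoidHom.toMulEquiv f g ?_ ?_⟩
  · apply Coprod.hom_ext
    · rw [MonoidHom.comp_assoc, Coprod.lift_comp_inl, MonoidHom.id_comp]
      apply CoprodI.ext_hom
      intro i
      rw [MonoidHom.comp_assoc, CoprodI.lift_comp_of]
      exact CoprodI.lift_comp_of _ _
    · rw [MonoidHom.comp_assoc, Coprod.lift_comp_inr, MonoidHom.id_comp]
      apply CoprodI.ext_hom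
      intro i
      rw [MonoidHom.comp_assoc, CoprodI.lift_comp_of]
      exact CoprodI.lift_comp_of _ _
  · apply CoprodI.ext_hom
    rintro (i | i)
    · rw [MonoidHom.comp_assoc, CoprodI.lift_comp_of, MonoidHom.id_comp]
      show f.comp ((Coprod.inl).comp _) = _
      rw [← MonoidHom.comp_assoc, Coprod.lift_comp_inl]
      exact CoprodI.lift_comp_of _ _
    · rw [MonoidHom.comp_assoc, CoprodI.lift_comp_of, MonoidHom.id_comp]
      show f.comp ((Coprod.inr).comp _) = _
      rw [← MonoidHom.comp_assoc, Coprod.lift_comp_inr]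
      exact CoprodI.lift_comp_of _ _

/-- one factor -/
theorem one (k : ℕ) : Nonempty (Multiplicative (ZMod k) ≃* FP fun _ : Fin 1 => k) := by
  let f : Multiplicative (ZMod k) →* FP fun _ : Fin 1 => k :=
    CoprodI.of (M := fun _ : Fin 1 => Multiplicative (ZMod k)) (i := 0)
  let g : (FP fun _ : Fin 1 => k) →* Multiplicative (ZMod k) :=
    CoprodI.lift fun _ => MonoidHom.id _
  refine ⟨MonoidHom.toMulEquiv f g ?_ ?_⟩
  · exact CoprodI.lift_comp_of _ _
  · apply CoprodI.ext_hom
    intro i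
    obtain rfl : i = 0 := Subsingleton.elim _ _
    rw [MonoidHom.comp_assoc, CoprodI.lift_comp_of, MonoidHom.comp_id, MonoidHom.id_comp]

theorem fpc {A B : Type} [Group A] [Group B] (e : A ≃* B) (h : IsFP A) : IsFP B := by
  obtain ⟨n, m, ⟨f⟩⟩ := h
  exact ⟨n, m, ⟨e.symm.trans f⟩⟩

theorem fpf {ι : Type} [Finite ι] (m : ι → ℕ) : IsFP (FP m) := by
  obtain ⟨n, l, -, h⟩ := FP_fin m
  exact ⟨n, l, h⟩

end cl

open cl in
theorem p_cl : S_cl := by
  refine ⟨fun ι G _ i => split G i, ?_, fun n m i => fpf _, ?_, ?_⟩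
  · rintro A B _ _ ⟨n, m, ⟨e⟩⟩ ⟨n', m', ⟨e'⟩⟩
    obtain ⟨f⟩ := two m m'
    refine fpc ((MulEquiv.coprodCongr e e').trans f).symm (fpf _)
  · obtain ⟨e⟩ := one 0
    exact ⟨1, fun _ => 0, ⟨e⟩⟩
  · intro C _ _ hC
    obtain ⟨e⟩ := one (Nat.card C)
    exact ⟨1, fun _ => Nat.card C, ⟨(zmodCyclicMulEquiv hC).symm.trans e⟩⟩

end Pool.Agent.VF
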