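import Pool.Agent.Lib.MP_305fdd_al.VF.I.Stm

/-!
# MP_305fdd_al, block VF, part (I): piece I6 (HNN extension, the edge group is a factor)
-/

set_option autoImplicit false

namespace Pool.Agent.VF

open Monoid Pool.Agent.MP_305fdd_al Pool.Agent.Lib.MP_305fdd_al Pool.Agent.FrT

/-- The isomorphism, for a group `Q` with the universal property of the free product of `A'` and `ℤ`. -/
theorem hn_core {V Q D A' Gi Gj : Type} [Group V] [Group Q] [Group D] [Group A'] [Group Gi]
    [Group Gj] (A C : Subgroup V) (t : V) (hH : Hn V A C t) (inlP : A' →* Q) (τ : Q)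
    (hlift : ∀ (g : A' →* V) (k : V), ∃ F : Q →* V, (∀ z, F (inlP z) = g z) ∧ F τ = k)
    (hext : ∀ g : Q →* Q, (∀ z, g (inlP z) = inlP z) → g τ = τ → ∀ q, g q = q)
    (dl : Gi →* D) (dr : A' →* D)
    (dlift : ∀ (g : Gi →* Q) (g' : A' →* Q), ∃ F : D →* Q, (∀ z, F (dl z) = g z) ∧
      ∀ z, F (dr z) = g' z)
    (dext : ∀ g g' : D →* V, (∀ z, g (dl z) = g' (dl z)) → (∀ z, g (dr z) = g' (dr z)) →
      ∀ q, g q = g' q)
    (e : D ≃* A) (ofj : Gj →* A') (hofj : Function.Injective ofj)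
    (hdr : Function.Injective dr)
    (hC : ∀ y : A, (y : V) ∈ C ↔ ∃ c, y = e (dl c)) (a : A)
    (ha : ∀ c ∈ C, ∃ d, (a : V) * (t * c * t⁻¹) * (a : V)⁻¹ = e (dr (ofj d))) :
    Nonempty (V ≃* Q) := by
  obtain ⟨F, hFl, hFτ⟩ := hlift (A.subtype.comp (e.toMonoidHom.comp dr)) ((a : V) * t)
  have hFl' : ∀ z, F (inlP z) = (e (dr z) : V) := hFl
  have hσ : ∀ c : Gi, ∃ d : Gj,
      (a : V) * (t * (e (dl c) : V) * t⁻¹) * (a : V)⁻¹ = e (dr (ofj d)) := by
    intro c
    exact ha _ ((hC _).2 ⟨c, rfl⟩)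
  choose σ0 hσ0 using hσ
  let σ : Gi →* Gj := MonoidHom.mk' σ0 (by
    intro x y
    apply hofj
    apply hdr
    apply e.injective
    apply Subtype.ext
    rw [← hσ0, map_mul dl, map_mul e, map_mul ofj, map_mul dr, map_mul e, Subgroup.coe_mul,
      Subgroup.coe_mul, ← hσ0, ← hσ0]
    group)
  have hσ1 : ∀ c, (a : V) * (t * (e (dl c) : V) * t⁻¹) * (a : V)⁻¹ = e (dr (ofj (σ c))) := hσ0
  let f1 : Gi →* Q :=
    (MulAut.conj τ⁻¹).toMonoidHom.comp (inlP.comp (ofj.comp σ))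
  have hf1 : ∀ c, f1 c = τ⁻¹ * inlP (ofj (σ c)) * τ := by
    intro c
    show MulAut.conj τ⁻¹ (inlP (ofj (σ c))) = _
    rw [MulAut.conj_apply, inv_inv]
  obtain ⟨f0, hf0l, hf0r⟩ := dlift f1 inlP
  let f : A →* Q := f0.comp e.symm.toMonoidHom
  have hf : ∀ z, f (e z) = f0 z := by
    intro z
    show f0 (e.symm (e z)) = _
    rw [MulEquiv.symm_apply_apply]
  obtain ⟨H, hHA, hHt⟩ := hH.ext Q f ((f a)⁻¹ * τ) (by
    intro c hc
    obtain ⟨c0, hc0⟩ := (hC ⟨c, hH.le1 hc⟩).1 hc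
    have h2 : c = (e (dl c0) : V) := congrArg Subtype.val hc0
    have h3 : (⟨t * c * t⁻¹, hH.le2 c hc⟩ : A) = a⁻¹ * e (dr (ofj (σ c0))) * a := by
      apply Subtype.ext
      show t * c * t⁻¹ = (a : V)⁻¹ * (e (dr (ofj (σ c0))) : V) * a
      rw [← hσ1, ← h2]
      group
    rw [h3, hc0, map_mul, map_mul, map_inv, hf, hf, hf0l, hf0r, hf1]
    group)
  have hFf : ∀ x : A, F (f x) = x := by
    have h2 : ∀ q, (F.comp f0) q = (A.subtype.comp e.toMonoidHom) q := by
      refine dext _ _ ?_ ?_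
      · intro c
        show F (f0 (dl c)) = (e (dl c) : V)
        rw [hf0l, hf1, map_mul, map_mul, map_inv, hFτ, hFl', ← hσ1]
        group
      · intro z
        show F (f0 (dr z)) = (e (dr z) : V)
        rw [hf0r, hFl']
    intro x
    have h4 : F (f0 (e.symm x)) = (e (e.symm x) : V) := h2 (e.symm x)
    rw [MulEquiv.apply_symm_apply] at h4
    exact h4
  have hFH : ∀ v : V, F (H v) = v := by
    have h2 : (F.comp H).eqLocus (MonoidHom.id V) = ⊤ := by
      rw [eq_top_iff, ← hH.gen]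
      refine sup_le ?_ ?_
      · intro x hx
        show F (H x) = x
        have h4 : H x = f ⟨x, hx⟩ := hHA ⟨x, hx⟩
        rw [h4]
        exact hFf ⟨x, hx⟩
      · rw [Subgroup.zpowers_le]
        show F (H t) = t
        rw [hHt, map_mul, map_inv, hFf, hFτ]
        group
    intro v
    have h3 : v ∈ (F.comp H).eqLocus (MonoidHom.id V) := h2 ▸ Subgroup.mem_top v
    exact h3
  have hHF : ∀ q, (H.comp F) q = q := by
    refine hext _ ?_ ?_
    · intro z
      show H (F (inlP z)) = inlP z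
      rw [hFl', hHA, hf, hf0r]
    · show H (F τ) = τ
      rw [hFτ, map_mul, hHA, hHt]
      group
  exact ⟨{ toFun := H, invFun := F, left_inv := hFH, right_inv := hHF, map_mul' := map_mul H }⟩

theorem p_hn (h1 : S_cl) : S_hn := by
  intro V _ A C t hH n m e i j hij hC a ha
  obtain ⟨c1, c2, c3, c4, -⟩ := h1
  obtain ⟨s, hs1, hs2⟩ := c1 (Fin n) (fun k => Multiplicative (ZMod (m k))) i
  have hdl : Function.Injective (Coprod.inr : (CoprodI fun k : {k : Fin n // k ≠ i} =>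
      Multiplicative (ZMod (m k))) →* Coprod (Multiplicative (ZMod (m i))) _) :=
    Coprod.inr_injective
  obtain ⟨ε⟩ := hn_core (Q := Coprod (CoprodI fun k : {k : Fin n // k ≠ i} =>
      Multiplicative (ZMod (m k))) (Multiplicative ℤ)) A C t hH Coprod.inl
    (Coprod.inr (Multiplicative.ofAdd 1))
    (fun g k => ⟨Coprod.lift g (zpowersHom V k), fun z => Coprod.lift_apply_inl _ _ z, by
      rw [Coprod.lift_apply_inr, zpowersHom_apply]
      simp⟩)
    (fun g hl hr q => by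
      have h2 : g = MonoidHom.id _ := by
        refine Coprod.hom_ext (MonoidHom.ext hl) (MonoidHom.ext_mint hr)
      rw [h2]
      rfl)
    (Coprod.inl : Multiplicative (ZMod (m i)) →* Coprod (Multiplicative (ZMod (m i)))
      (CoprodI fun k : {k : Fin n // k ≠ i} => Multiplicative (ZMod (m k)))) Coprod.inr
    (fun g g' => ⟨Coprod.lift g g', fun z => Coprod.lift_apply_inl _ _ z,
      fun z => Coprod.lift_apply_inr _ _ z⟩)
    (fun g g' hl hr q => by
      have h2 : g = g' := Coprod.hom_ext (MonoidHom.ext hl) (MonoidHom.ext hr)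
      rw [h2])
    (s.symm.trans e)
    (CoprodI.of (M := fun k : {k : Fin n // k ≠ i} => Multiplicative (ZMod (m k)))
      (i := ⟨j, hij.symm⟩))
    (CoprodI.of_injective _) hdl
    (by
      intro y
      rw [hC y]
      refine exists_congr fun c => ?_
      rw [MulEquiv.trans_apply, ← hs1, MulEquiv.symm_apply_apply])
    a (by
      intro c hc
      obtain ⟨d, hd⟩ := ha c hc
      refine ⟨d, ?_⟩
      rw [hd, MulEquiv.trans_apply, ← hs2 ⟨j, hij.symm⟩ d, MulEquiv.symm_apply_apply])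
  obtain ⟨n', m', ⟨e'⟩⟩ := c2 _ _ (c3 n m i) c4
  exact ⟨n', m', ⟨ε.trans e'⟩⟩

end Pool.Agent.VF
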