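import Pool.Agent.Lib.MP_305fdd_al.VF.I.Stm

/-!
# MP_305fdd_al, block VF, part (I): [VF I7] ping-pong at an edge
-/

set_option autoImplicit false

namespace Pool.Agent.VF

open Monoid Pool.Agent.MP_305fdd_al Pool.Agent.Lib.MP_305fdd_al Pool.Agent.FrT

section ping

variable {V : Type} [Group V] {W : Type} [MulAction V W] {X : SimpleGraph W}

/-- connected without the edge `e` -/
def Rc (X : SimpleGraph W) (e : Sym2 W) (x z : W) : Prop := (X.deleteEdges {e}).Reachable x z

theorem Rc.smul (hact : ∀ (g : V) (x y : W), X.Adj x y → X.Adj (g • x) (g • y)) (g : V)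
    {e : Sym2 W} {x z : W} (h : Rc X e x z) :
    Rc X (Sym2.map (fun y => g • y) e) (g • x) (g • z) := by
  obtain ⟨w⟩ := h
  induction w with
  | nil => exact SimpleGraph.Reachable.refl _
  | @cons a b c hab w ih =>
    refine SimpleGraph.Reachable.trans (SimpleGraph.Adj.reachable ?_) ih
    rw [SimpleGraph.deleteEdges_adj] at hab ⊢
    refine ⟨hact g a b hab.1, ?_⟩
    intro h
    apply hab.2
    rw [Set.mem_singleton_iff] at h ⊢
    exact Sym2.map.injective (MulAction.injective g) h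

theorem Rc_of_Rch {u v x y : W} (h : Rch V X u v x y) {e : Sym2 W} (he : e ∈ Orb V u v) :
    Rc X e x y :=
  SimpleGraph.Reachable.mono (SimpleGraph.deleteEdges_anti (Set.singleton_subset_iff.2 he)) h

theorem Rc_adj {x y : W} (h : X.Adj x y) {e : Sym2 W} (he : s(x, y) ≠ e) : Rc X e x y :=
  SimpleGraph.Adj.reachable (by rw [SimpleGraph.deleteEdges_adj]; exact ⟨h, he⟩)

theorem Rc_avoid {e e' : Sym2 W} {p z u v : W} (he : e = s(u, v)) (h : Rc X e' p z)
    (hu : ¬ Rc X e' p u) : Rc X e p z := by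
  obtain ⟨w⟩ := h
  induction w with
  | nil => exact SimpleGraph.Reachable.refl _
  | @cons a b c hab w ih =>
    have h1 : Rc X e' a b := SimpleGraph.Adj.reachable hab
    refine SimpleGraph.Reachable.trans ?_ (ih fun h => hu (SimpleGraph.Reachable.trans h1 h))
    refine Rc_adj (SimpleGraph.deleteEdges_adj.1 hab).1 ?_
    rw [he]
    intro h
    rw [Sym2.eq_iff] at h
    rcases h with ⟨h, -⟩ | ⟨-, h⟩
    · apply hu
      rw [h]
      exact SimpleGraph.Reachable.refl _
    · apply hu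
      rw [← h]
      exact h1

theorem Rc_bridge (hX : X.IsTree) {x y : W} (h : X.Adj x y) : ¬ Rc X s(x, y) x y :=
  SimpleGraph.isBridge_iff.1 (SimpleGraph.isAcyclic_iff_forall_adj_isBridge.1 hX.isAcyclic h)

theorem ping_side (hX : X.IsTree)
    (hact : ∀ (g : V) (x y : W), X.Adj x y → X.Adj (g • x) (g • y)) {u v : W} (huv : X.Adj u v)
    (hinv : ∀ g : V, ¬ (g • u = v ∧ g • v = u)) (a : V) (ha : Rch V X u v (a • u) u)
    (ha' : a ∉ SC V u v) :
    (∀ y, Rc X s(u, v) v y → Rc X s(u, v) u (a • y)) ∧ ¬ Rc X s(a • u, a • v) (a • v) u := by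
  have hne : s(a • u, a • v) ≠ s(u, v) := by
    intro h
    rw [Sym2.eq_iff] at h
    rcases h with ⟨h1, h2⟩ | ⟨h1, h2⟩
    · exact ha' ⟨MulAction.mem_stabilizer_iff.2 h1, MulAction.mem_stabilizer_iff.2 h2⟩
    · exact hinv a ⟨h1, h2⟩
  have h1 : Rc X s(a • u, a • v) (a • u) u := Rc_of_Rch ha ⟨a, rfl⟩
  have h2 : ¬ Rc X s(a • u, a • v) (a • v) u := by
    intro h
    exact Rc_bridge hX (hact a u v huv) (SimpleGraph.Reachable.trans h1
      (SimpleGraph.Reachable.symm h))
  refine ⟨?_, h2⟩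
  intro y hy
  have h3 : Rc X s(a • u, a • v) (a • v) (a • y) := hy.smul hact a
  have h4 : Rc X s(u, v) (a • v) (a • y) := Rc_avoid rfl h3 h2
  have h5 : Rc X s(u, v) u (a • u) := Rc_of_Rch ha.symm ⟨1, by rw [one_smul, one_smul]⟩
  have h6 : Rc X s(u, v) (a • u) (a • v) := Rc_adj (hact a u v huv) hne
  exact SimpleGraph.Reachable.trans h5 (SimpleGraph.Reachable.trans h6 h4)

end ping

theorem p_ping : S_ping := by
  intro V _ W _ X u v hX hact huv hinv a b ha ha' hb hb' hfin
  have hA := ping_side hX hact huv hinv a ha ha'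
  have hO : Orb V v u = Orb V u v := by
    ext e
    constructor
    · rintro ⟨g, rfl⟩
      exact ⟨g, Sym2.eq_swap⟩
    · rintro ⟨g, rfl⟩
      exact ⟨g, Sym2.eq_swap⟩
  have hb1 : Rch V X v u (b • v) v := by
    unfold Rch
    rw [hO]
    exact hb
  have hB := ping_side hX hact huv.symm (fun g h => hinv g ⟨h.2, h.1⟩) b hb1
    (fun h => hb' ⟨h.2, h.1⟩)
  have hB1 : ∀ y, Rc X s(u, v) u y → Rc X s(u, v) v (b • y) := by
    intro y hy
    have h1 := hB.1 y
    rw [Sym2.eq_swap] at h1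
    exact h1 hy
  have key : ∀ n : ℕ, Rc X s(u, v) u ((a * b) ^ n • u) := by
    intro n
    induction n with
    | zero =>
      rw [pow_zero, one_smul]
      exact SimpleGraph.Reachable.refl _
    | succ n ih =>
      rw [pow_succ', mul_smul, mul_smul]
      exact hA.1 _ (hB1 _ ih)
  obtain ⟨n, hn, hn1⟩ := isOfFinOrder_iff_pow_eq_one.1 hfin
  obtain ⟨m, rfl⟩ := Nat.exists_eq_succ_of_ne_zero hn.ne'
  apply hA.2
  have h1 : Rc X s(a • u, a • v) (a • v) (a • b • (a * b) ^ m • u) :=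
    (hB1 _ (key m)).smul hact a
  have h2 : a • b • (a * b) ^ m • u = u := by
    rw [← mul_smul, ← mul_smul, ← pow_succ', hn1, one_smul]
  rw [h2] at h1
  exact h1

end Pool.Agent.VF
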