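import Pool.Agent.Lib.MP_305fdd_al.VF.I.Stm

/-!
# MP_305fdd_al, block VF, part (I): [VF I8] the universal properties from Bass-Serre theory
-/

set_option autoImplicit false

namespace Pool.Agent.VF

open Monoid Pool.Agent.MP_305fdd_al Pool.Agent.Lib.MP_305fdd_al Pool.Agent.FrT

theorem up_am (V : Type) [Group V] (W : Type) [MulAction V W] (X : SimpleGraph W) (u v : W)
    (hact : ∀ (g : V) (x y : W), X.Adj x y → X.Adj (g • x) (g • y))
    (hX : X.IsTree) (huv : X.Adj u v) (hinv : ∀ g : V, ¬ (g • u = v ∧ g • v = u))
    (hno : ∀ g : V, ¬ Rch V X u v (g • u) v) :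
    Am V (Sst (u := u) (v := v) hact u) (Sst (u := u) (v := v) hact v) (SC V u v) := by
  classical
  let A := Sst (u := u) (v := v) hact u
  let B := Sst (u := u) (v := v) hact v
  let S : Fin 2 → Subgroup V := ![A, B]
  have hC : ∀ i, SC V u v ≤ S i := by
    intro i
    fin_cases i
    · exact SC_le_u hact
    · exact SC_le_v hact
  have hbij := FrT.amalg hact hX hinv huv hno S rfl rfl hC
  set nat : PushoutI (fun i => Subgroup.inclusion (hC i)) →* V :=
    PushoutI.lift (φ := fun i => Subgroup.inclusion (hC i))
      (fun i => (S i).subtype) (SC V u v).subtype (fun i => by ext x; rfl) with hnat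
  have hnat_of : ∀ i (a : S i), nat (PushoutI.of i a) = a := by
    intro i a
    rw [hnat, PushoutI.lift_of]
    rfl
  refine ⟨SC_le_u hact, SC_le_v hact, ?_, ?_⟩
  · rw [eq_top_iff]
    intro x _
    obtain ⟨y, rfl⟩ := hbij.2 x
    induction y using PushoutI.induction_on with
    | of i a =>
      rw [hnat_of]
      fin_cases i
      · exact Subgroup.mem_sup_left a.2
      · exact Subgroup.mem_sup_right a.2
    | base c =>
      have h0 := PushoutI.of_apply_eq_base (fun i => Subgroup.inclusion (hC i)) 0 c
      rw [← h0, hnat_of]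
      exact Subgroup.mem_sup_left (SC_le_u hact c.2)
    | mul x y hx hy =>
      rw [map_mul]
      exact mul_mem (hx trivial) (hy trivial)
  · intro K _ f g hfg
    let F : ∀ i, S i →* K := fun i => match i with
      | 0 => f
      | 1 => g
    let L : PushoutI (fun i => Subgroup.inclusion (hC i)) →* K :=
      PushoutI.lift (φ := fun i => Subgroup.inclusion (hC i)) F
        (f.comp (Subgroup.inclusion (SC_le_u hact))) (by
          intro i
          fin_cases i
          · rfl
          · ext x
            exact (hfg x.1 x.2).symm)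
    have hL : ∀ i (a : S i), L (PushoutI.of i a) = F i a := by
      intro i a
      simp only [L]
      rw [PushoutI.lift_of]
    let e := MulEquiv.ofBijective nat hbij
    refine ⟨L.comp e.symm.toMonoidHom, ?_, ?_⟩
    · intro a
      have h1 : e.symm (a : V) = PushoutI.of (φ := fun i => Subgroup.inclusion (hC i)) 0 a := by
        rw [MulEquiv.symm_apply_eq]
        exact (hnat_of 0 a).symm
      exact (congrArg L h1).trans (hL 0 a)
    · intro b
      have h1 : e.symm (b : V) = PushoutI.of (φ := fun i => Subgroup.inclusion (hC i)) 1 b := by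
        rw [MulEquiv.symm_apply_eq]
        exact (hnat_of 1 b).symm
      exact (congrArg L h1).trans (hL 1 b)

theorem up_hn (V : Type) [Group V] (W : Type) [MulAction V W] (X : SimpleGraph W) (u v : W)
    (hact : ∀ (g : V) (x y : W), X.Adj x y → X.Adj (g • x) (g • y))
    (hX : X.IsTree) (huv : X.Adj u v) (hinv : ∀ g : V, ¬ (g • u = v ∧ g • v = u))
    (t : V) (ht : Rch V X u v (t • u) v) (C : Subgroup V)
    (hC : ∀ c : V, c ∈ C ↔ c ∈ Sst (u := u) (v := v) hact u ∧ t * c * t⁻¹ ∈ SC V u v) :
    Hn V (Sst (u := u) (v := v) hact u) C t := by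
  classical
  let A := Sst (u := u) (v := v) hact u
  obtain ⟨C₁, C₂, φ, m1, m2, hφ⟩ := FrT.hnn_data hact t ht A rfl
  have hbij := FrT.hnn hact hX hinv huv t ht A rfl C₁ C₂ m1 m2 φ hφ
  set nat : HNNExtension A C₁ C₂ φ →* V := HNNExtension.lift (φ := φ) A.subtype t
      (fun a => by rw [Subgroup.subtype_apply, Subgroup.subtype_apply, hφ]; group) with hnat
  have hnat_of : ∀ (a : A), nat (HNNExtension.of a) = a := by
    intro a
    rw [hnat, HNNExtension.lift_of]
    rfl
  have hnat_t : nat HNNExtension.t = t := by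
    rw [hnat, HNNExtension.lift_t]
  have hle1 : C ≤ A := fun c hc => ((hC c).1 hc).1
  have hle2 : ∀ c ∈ C, t * c * t⁻¹ ∈ A := fun c hc => SC_le_u hact ((hC c).1 hc).2
  refine ⟨hle1, hle2, ?_, ?_⟩
  · rw [eq_top_iff]
    intro x _
    obtain ⟨y, rfl⟩ := hbij.2 x
    induction y using HNNExtension.induction_on with
    | of a =>
      rw [hnat_of]
      exact Subgroup.mem_sup_left a.2
    | t =>
      rw [hnat_t]
      exact Subgroup.mem_sup_right (Subgroup.mem_zpowers t)
    | mul x y hx hy =>
      rw [map_mul]
      exact mul_mem (hx trivial) (hy trivial)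
    | inv x hx =>
      rw [map_inv]
      exact inv_mem (hx trivial)
  · intro K _ f k hk
    let L : HNNExtension A C₁ C₂ φ →* K := HNNExtension.lift (φ := φ) f k (by
      intro a
      have h1 : ((a : A) : V) ∈ C := (hC _).2 ⟨(a : A).2, (m1 _).1 a.2⟩
      have h2 := hk _ h1
      have h3 : ((φ a : C₂) : A) = ⟨t * ((a : A) : V) * t⁻¹, hle2 _ h1⟩ := Subtype.ext (hφ a)
      rw [h3]
      change k * f ⟨((a : A) : V), _⟩ = _
      rw [← h2]
      group)
    let e := MulEquiv.ofBijective nat hbij
    refine ⟨L.comp e.symm.toMonoidHom, ?_, ?_⟩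
    · intro a
      have h1 : e.symm (a : V) = HNNExtension.of a := by
        rw [MulEquiv.symm_apply_eq]
        exact (hnat_of a).symm
      change L (e.symm (a : V)) = f a
      rw [h1, HNNExtension.lift_of]
    · have h1 : e.symm t = HNNExtension.t := by
        rw [MulEquiv.symm_apply_eq]
        exact hnat_t.symm
      change L (e.symm t) = k
      rw [h1, HNNExtension.lift_t]

theorem p_up : S_up := by
  refine ⟨?_, ?_⟩
  · intro V _ W _ X u v hact hX huv hinv hno
    exact up_am V W X u v hact hX huv hinv hno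
  · intro V _ W _ X u v hact hX huv hinv t ht C hC
    exact up_hn V W X u v hact hX huv hinv t ht C hC

end Pool.Agent.VF
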