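import Pool.Agent.Lib.MP_305fdd_al.VF.I.Main
import Pool.Agent.Lib.MP_305fdd_al.VF.I.p_TC
import Pool.Agent.Lib.MP_305fdd_al.VF.I.p_CF
import Pool.Agent.Lib.MP_305fdd_al.VF.I.p_FF
import Pool.Agent.Lib.MP_305fdd_al.VF.I.p_cl
import Pool.Agent.Lib.MP_305fdd_al.VF.I.p_am
import Pool.Agent.Lib.MP_305fdd_al.VF.I.p_hn
import Pool.Agent.Lib.MP_305fdd_al.VF.I.p_ping
import Pool.Agent.Lib.MP_305fdd_al.VF.I.p_up
import Pool.Agent.Lib.MP_305fdd_al.VF.R.p_rank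

/-! MP_305fdd_al, block VF: parts (R) and (I), final theorems. -/

set_option autoImplicit false

namespace Pool.Agent.VF

theorem p_R : S_R := R_of p_ret p_rank

theorem p_I (hS : S_S) : S_I :=
  I_of hS p_R p_TC (p_FF p_TC p_CF) p_cl (p_am p_cl) (p_hn p_cl) p_ping p_up

end Pool.Agent.VF
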