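import Pool.Agent.Lib.MP_305fdd_al.VF.I.Stm
import Pool.Agent.Lib.MP_305fdd_al.VF.R.Main

/-! [VF I9] groups in the class `VC` are free products of cyclic groups: assembly of `S_I`. -/

set_option autoImplicit false

namespace Pool.Agent.VF

open Monoid Pool.Agent.MP_305fdd_al Pool.Agent.Lib.MP_305fdd_al Pool.Agent.FrT

section
variable {V : Type} [Group V] {T : Type} [CommGroup T] {α : V →* T} {r : ℕ}

theorem VC.tf (hV : VC V α r) (g : V) (hg : α g = 1) (hfin : IsOfFinOrder g) : g = 1 := by
  have h1 : IsOfFinOrder (⟨g, hg⟩ : α.ker) := by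
    rw [isOfFinOrder_iff_pow_eq_one] at hfin ⊢
    obtain ⟨n, hn, hn'⟩ := hfin
    exact ⟨n, hn, Subtype.ext hn'⟩
  exact congrArg Subtype.val (torsionfree_of_free hV.fr _ h1)

theorem fin_of_mem {C : Subgroup V} (hC : Finite C) {x : V} (hx : x ∈ C) : IsOfFinOrder x :=
  C.subtype.isOfFinOrder (isOfFinOrder_of_finite (⟨x, hx⟩ : C))

/-- if `s` normalises the finite group `C` (elementwise) then it centralises it -/
theorem VC.comm (hV : VC V α r) {C : Subgroup V} (hC : Finite C) {s c : V} (hc : c ∈ C)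
    (h : s * c * s⁻¹ ∈ C) : s * c = c * s := by
  have h1 : s * c * s⁻¹ * c⁻¹ ∈ C := C.mul_mem h (C.inv_mem hc)
  have h2 : α (s * c * s⁻¹ * c⁻¹) = 1 := by
    simp only [map_mul, map_inv]
    rw [mul_comm (α s) (α c)]
    group
  have h3 := hV.tf _ h2 (fin_of_mem hC h1)
  have h4 : s * c * s⁻¹ = c := mul_inv_eq_one.1 h3
  exact mul_inv_eq_iff_eq_mul.1 h4

theorem VC.sub (hV : VC V α r) (A : Subgroup V) {r' : ℕ}
    (h : Nonempty (α.ker.subgroupOf A ≃* FreeGroup (Fin r'))) : VC A (α.comp A.subtype) r' := by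
  have hinj : ∀ x : A, ∃ f : Subgroup.centralizer ({x} : Set A) →*
      Subgroup.centralizer ({(x : V)} : Set V), Function.Injective f := by
    intro x
    refine ⟨(A.subtype.comp (Subgroup.centralizer ({x} : Set A)).subtype).codRestrict _ ?_, ?_⟩
    · intro y
      have h1 := Subgroup.mem_centralizer_singleton_iff.1 y.2
      rw [Subgroup.mem_centralizer_singleton_iff]
      exact congrArg Subtype.val h1
    · intro y z hyz
      have h1 := Subtype.ext_iff.1 hyz
      exact Subtype.ext (Subtype.ext h1)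
  have ho : ∀ x : A, IsOfFinOrder x → IsOfFinOrder (x : V) := fun x hx =>
    A.subtype.isOfFinOrder hx
  have h1 : ∀ x : A, x ≠ 1 → (x : V) ≠ 1 := fun x hx h => hx (Subtype.ext h)
  refine ⟨?_, ?_, ?_⟩
  · have : (α.comp A.subtype).ker = α.ker.subgroupOf A := by
      ext x
      rfl
    rw [this]
    exact h
  · intro x hx hx'
    obtain ⟨f, hf⟩ := hinj x
    have := hV.fin (x : V) (h1 x hx) (ho x hx')
    exact Finite.of_injective f hf
  · intro x hx hx'
    obtain ⟨f, hf⟩ := hinj x
    have := hV.cyc (x : V) (h1 x hx) (ho x hx')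
    exact isCyclic_of_injective f hf

theorem ff_side (hFF : S_FF) {S E : Subgroup V} (hS : IsFP S) (hE : E ≤ S) (hfin : Finite E)
    (hV : VC V α r) {x : V} (hx : x ∈ E) (hx1 : x ≠ 1)
    (hc : ∀ a ∈ S, a * x = x * a → a ∈ E) : FF S (E.subgroupOf S) := by
  have h1 := hFF.1 S hS ⟨x, hE hx⟩ (fun h => hx1 (congrArg Subtype.val h)) (by
    have := fin_of_mem hfin hx
    rw [isOfFinOrder_iff_pow_eq_one] at this ⊢
    obtain ⟨n, hn, hn'⟩ := this
    exact ⟨n, hn, Subtype.ext hn'⟩)
  have h2 : Subgroup.centralizer ({(⟨x, hE hx⟩ : S)} : Set S) = E.subgroupOf S := by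
    ext a
    rw [Subgroup.mem_centralizer_singleton_iff, Subgroup.mem_subgroupOf]
    constructor
    · intro h
      exact hc a a.2 (congrArg Subtype.val h)
    · intro h
      apply Subtype.ext
      refine hV.comm hfin hx ?_
      exact E.mul_mem (E.mul_mem h hx) (E.inv_mem h)
  rw [h2] at h1
  exact h1

theorem Am.symm {A B E : Subgroup V} (h : Am V A B E) : Am V B A E := by
  refine ⟨h.le2, h.le1, by rw [sup_comm]; exact h.gen, ?_⟩
  intro K _ f g hfg
  obtain ⟨k, h1, h2⟩ := h.ext K g f (fun x hx => (hfg x hx).symm)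
  exact ⟨k, h2, h1⟩

theorem Hn.symm {A C C' : Subgroup V} {t : V} (h : Hn V A C t)
    (hC : ∀ c : V, c ∈ C' ↔ t⁻¹ * c * t ∈ C) : Hn V A C' t⁻¹ := by
  have e1 : ∀ c : V, t * (t⁻¹ * c * t) * t⁻¹ = c := fun c => by group
  have e2 : ∀ c : V, t⁻¹ * (t * c * t⁻¹) * t = c := fun c => by group
  have h1 : C' ≤ A := by
    intro c hc
    have := h.le2 _ ((hC c).1 hc)
    rwa [e1] at this
  refine ⟨h1, ?_, ?_, ?_⟩
  · intro c hc
    rw [inv_inv]
    exact h.le1 ((hC c).1 hc)
  · rw [Subgroup.zpowers_inv]
    exact h.gen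
  · intro K _ f k hk
    obtain ⟨g, hg1, hg2⟩ := h.ext K f k⁻¹ (by
      intro c hc
      have hc' : t * c * t⁻¹ ∈ C' := by
        rw [hC, e2]
        exact hc
      have h2 := hk _ hc'
      have h3 : (⟨t⁻¹ * (t * c * t⁻¹) * t⁻¹⁻¹, by
          rw [inv_inv, e2]; exact h.le1 hc⟩ : A) = ⟨c, h.le1 hc⟩ := by
        apply Subtype.ext
        show t⁻¹ * (t * c * t⁻¹) * t⁻¹⁻¹ = c
        rw [inv_inv, e2]
      rw [h3] at h2
      rw [← h2]
      group)
    exact ⟨g, hg1, by rw [map_inv, hg2, inv_inv]⟩

/-- the HNN case -/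
theorem hn_case (hTC : S_TC) (hFF : S_FF) (hhn : S_hn) (hV : VC V α r) {A C : Subgroup V} {t : V}
    (hH : Hn V A C t) (hA : IsFP A) (hC : Finite C) {x : V} (hx : x ∈ C) (hx1 : x ≠ 1)
    (hcen : ∀ a ∈ A, a * x = x * a → a ∈ C) : IsFP V := by
  obtain ⟨n, m, e, i, hi⟩ := ff_side hFF hA hH.le1 hC hV hx hx1 hcen
  -- a generator of `C`
  have hCcyc : IsCyclic C := by
    have := hV.cyc x hx1 (fin_of_mem hC hx)
    refine isCyclic_of_injective (G' := Subgroup.centralizer ({x} : Set V))
      (C.subtype.codRestrict _ ?_) ?_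
    · intro c
      rw [Subgroup.mem_centralizer_singleton_iff]
      exact hV.comm hC hx (C.mul_mem (C.mul_mem c.2 hx) (C.inv_mem c.2))
    · intro a b hab
      have h1 := Subtype.ext_iff.1 hab
      exact Subtype.ext h1
  obtain ⟨z₀, hz₀⟩ := hCcyc.exists_generator
  have hz₁ : (z₀ : V) ≠ 1 := by
    intro h
    obtain ⟨k, hk⟩ := hz₀ ⟨x, hx⟩
    apply hx1
    have h1 : z₀ = 1 := Subtype.ext h
    have h2 := congrArg Subtype.val hk
    simp only [h1, one_zpow] at h2
    exact h2.symm
  let z : A := ⟨t * z₀ * t⁻¹, hH.le2 _ z₀.2⟩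
  have hz : e.symm z ≠ 1 := by
    intro h
    have h1 : z = 1 := by
      rw [← e.apply_symm_apply z, h, map_one]
    exact hz₁ (conj_eq_one_iff.1 (congrArg Subtype.val h1))
  have hzf : IsOfFinOrder (e.symm z) := by
    apply e.symm.toMonoidHom.isOfFinOrder
    have h1 : IsOfFinOrder (z₀ : V) := fin_of_mem hC z₀.2
    rw [isOfFinOrder_iff_pow_eq_one] at h1 ⊢
    obtain ⟨k, hk, hk'⟩ := h1
    refine ⟨k, hk, Subtype.ext ?_⟩
    show (t * z₀ * t⁻¹) ^ k = 1
    rw [conj_pow, hk']
    group
  obtain ⟨j, y, g, hg⟩ := hTC (Fin n) (fun i => Multiplicative (ZMod (m i))) (e.symm z) hz hzf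
  have hz2 : z = e g * e (CoprodI.of y) * (e g)⁻¹ := by
    rw [← map_inv, ← map_mul, ← map_mul, ← hg, e.apply_symm_apply]
  let a : A := (e g)⁻¹
  have haz : a * z * a⁻¹ = e (CoprodI.of y) := by
    rw [hz2]
    simp only [a]
    group
  have hgen : ∀ c ∈ C, ∃ k : ℤ, (a : V) * (t * c * t⁻¹) * (a : V)⁻¹ = e (CoprodI.of (y ^ k)) := by
    intro c hc
    obtain ⟨k, hk⟩ := hz₀ ⟨c, hc⟩
    refine ⟨k, ?_⟩
    have h1 : (z₀ : V) ^ k = c := congrArg Subtype.val hk
    have h2 : ((a * z * a⁻¹) ^ k : A) = e (CoprodI.of (y ^ k)) := by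
      rw [haz, map_zpow, map_zpow]
    rw [← h2, ← h1]
    show (a : V) * (t * (z₀ : V) ^ k * t⁻¹) * (a : V)⁻¹ = ((a * z * a⁻¹ : A) ^ k : A)
    have h3 : ((a * z * a⁻¹ : A) : V) = (a : V) * (t * z₀ * t⁻¹) * (a : V)⁻¹ := rfl
    rw [Subgroup.coe_zpow, h3, conj_zpow, conj_zpow]
  by_cases hij : i = j
  · exfalso
    subst hij
    let s : V := (a : V) * t
    have hs : ∀ c ∈ C, s * c * s⁻¹ ∈ C := by
      intro c hc
      obtain ⟨k, hk⟩ := hgen c hc
      have h1 : s * c * s⁻¹ = (a : V) * (t * c * t⁻¹) * (a : V)⁻¹ := by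
        simp only [s]
        group
      rw [h1, hk]
      exact (hi (e (CoprodI.of (y ^ k)))).2 ⟨y ^ k, rfl⟩
    have hsx : s * x = x * s := hV.comm hC hx (hs x hx)
    have hfin := hV.fin x hx1 (fin_of_mem hC hx)
    have hso : IsOfFinOrder s := by
      refine fin_of_mem hfin (Subgroup.mem_centralizer_singleton_iff.2 hsx)
    obtain ⟨h, h1, h2⟩ := hH.ext (Multiplicative ℤ) 1 (Multiplicative.ofAdd 1) (by
      intro c hc
      simp)
    have h3 : h s = Multiplicative.ofAdd 1 := by
      simp only [s]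
      rw [map_mul, h1 a, h2, MonoidHom.one_apply, one_mul]
    have h4 := h.isOfFinOrder hso
    rw [h3, isOfFinOrder_iff_pow_eq_one] at h4
    obtain ⟨k, hk, hk'⟩ := h4
    rw [← ofAdd_nsmul, ← ofAdd_zero] at hk'
    have h5 := Multiplicative.ofAdd.injective hk'
    simp at h5
    omega
  · refine hhn V A C t hH n m e i j hij hi a ?_
    intro c hc
    obtain ⟨k, hk⟩ := hgen c hc
    exact ⟨y ^ k, hk⟩

theorem hn_bot (hcl : S_cl) (hFF : S_FF) (hhn : S_hn) {A C : Subgroup V} {t : V}
    (hH : Hn V A C t) (hA : IsFP A) (hC : C = ⊥) : IsFP V := by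
  obtain ⟨n, m, ⟨e⟩⟩ := hA
  obtain ⟨f⟩ : Nonempty (FP m ≃* FP (Fin.cons 1 (Fin.cons 1 m) : Fin (n + 2) → ℕ)) := by
    refine coprodI_equiv (fun i => i.succ.succ)
      (fun a b h => Fin.succ_injective _ (Fin.succ_injective _ h)) (fun i => MulEquiv.refl _) ?_
    intro j hj
    rcases Fin.eq_zero_or_eq_succ j with rfl | ⟨j', rfl⟩
    · exact (inferInstance : Subsingleton (ZMod 1))
    · rcases Fin.eq_zero_or_eq_succ j' with rfl | ⟨j'', rfl⟩
      · exact (inferInstance : Subsingleton (ZMod 1))
      · exact absurd ⟨j'', rfl⟩ hj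
  have hs : ∀ c : Multiplicative (ZMod ((Fin.cons 1 (Fin.cons 1 m) : Fin (n + 2) → ℕ) 0)),
      c = 1 := by
    intro c
    have : Subsingleton (Multiplicative
      (ZMod ((Fin.cons 1 (Fin.cons 1 m) : Fin (n + 2) → ℕ) 0))) :=
      (inferInstance : Subsingleton (ZMod 1))
    exact Subsingleton.elim _ _
  refine hhn V A C t hH (n + 2) (Fin.cons 1 (Fin.cons 1 m)) (f.symm.trans e.symm) 0 1
    (by simp) ?_ 1 ?_
  · intro y
    rw [hC, Subgroup.mem_bot]
    constructor
    · intro h
      refine ⟨1, ?_⟩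
      rw [map_one, map_one]
      exact Subtype.ext h
    · rintro ⟨c, hc⟩
      rw [hc, hs c, map_one, map_one]
      rfl
  · intro c hc
    rw [hC, Subgroup.mem_bot] at hc
    refine ⟨1, ?_⟩
    rw [map_one, map_one, hc]
    simp

end

theorem I_of (hS : S_S) (hR : S_R) (hTC : S_TC) (hFF : S_FF) (hcl : S_cl) (ham : S_am)
    (hhn : S_hn) (hping : S_ping) (hup : S_up) : S_I := by
  have main : ∀ (r : ℕ) (V : Type) [Group V] (T : Type) [CommGroup T] [Finite T] (α : V →* T),
      VC V α r → IsFP V := by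
    intro r
    induction r using Nat.strong_induction_on with
    | _ r IH =>
    intro V _ T _ _ α hV
    rcases Nat.eq_zero_or_pos r with hr | hr
    · -- rank zero
      subst hr
      have hinj : Function.Injective α := by
        rw [← MonoidHom.ker_eq_bot_iff, eq_bot_iff]
        intro x hx
        obtain ⟨e⟩ := hV.fr
        have h1 : (⟨x, hx⟩ : α.ker) = 1 := e.injective (Subsingleton.elim _ _)
        exact congrArg Subtype.val h1
      have hfin : Finite V := Finite.of_injective α hinj
      have hcomm : ∀ a b : V, a * b = b * a := by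
        intro a b
        apply hinj
        rw [map_mul, map_mul, mul_comm]
      refine hcl.2.2.2.2 V ?_
      by_cases hsub : Subsingleton V
      · exact isCyclic_of_subsingleton
      · have := not_subsingleton_iff_nontrivial.1 hsub
        obtain ⟨x, hx⟩ := exists_ne (1 : V)
        have h1 := hV.cyc x hx (isOfFinOrder_of_finite x)
        refine isCyclic_of_injective (G' := Subgroup.centralizer ({x} : Set V))
          ((MonoidHom.id V).codRestrict _ ?_) ?_
        · intro y
          rw [Subgroup.mem_centralizer_singleton_iff]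
          exact hcomm y x
        · intro a b hab
          have h2 := Subtype.ext_iff.1 hab
          exact h2
    · obtain ⟨r0, rfl⟩ : ∃ r0, r = r0 + 1 := ⟨r - 1, by omega⟩
      have hfi : α.ker.FiniteIndex := inferInstance
      obtain ⟨W, _, X, u, v, hX⟩ := hS V α.ker inferInstance hfi r0 hV.fr
      have hside : ∀ x : W, x = u ∨ x = v → IsFP (Sst (u := u) (v := v) hX.act x) := by
        intro x hx
        obtain ⟨r', hr', h1⟩ := hR V α.ker inferInstance hfi (r0 + 1) hV.fr W X u v hX x hx
        exact IH r' hr' _ T (α.comp (Sst (u := u) (v := v) hX.act x).subtype)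
          (hV.sub _ h1)
      have hA := hside u (Or.inl rfl)
      have hB := hside v (Or.inr rfl)
      have hE := hX.fin
      have hAE := SC_le_u (u := u) (v := v) hX.act
      have hBE := SC_le_v (u := u) (v := v) hX.act
      -- alternatives
      have halt : ∀ x ∈ SC V u v, x ≠ 1 →
          (∀ a ∈ Sst (u := u) (v := v) hX.act u, a * x = x * a → a ∈ SC V u v) ∨
          (∀ b ∈ Sst (u := u) (v := v) hX.act v, b * x = x * b → b ∈ SC V u v) := by
        intro x hx hx1
        by_contra hcon
        push Not at hcon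
        obtain ⟨⟨a, ha1, ha2, ha3⟩, b, hb1, hb2, hb3⟩ := hcon
        refine hping V W X u v hX.tree hX.act hX.adj hX.inv a b ha1 ha3 hb1 hb3 ?_
        have := hV.fin x hx1 (fin_of_mem hE hx)
        refine fin_of_mem this (Subgroup.mul_mem _ ?_ ?_)
        · exact Subgroup.mem_centralizer_singleton_iff.2 ha2
        · exact Subgroup.mem_centralizer_singleton_iff.2 hb2
      rcases amalg_or_hnn (u := u) (v := v) hX.act with hno | ⟨t, ht⟩
      · -- amalgam
        have hAm := hup.1 V W X u v hX.act hX.tree hX.adj hX.inv hno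
        by_cases hbot : SC V u v = ⊥
        · refine ham V _ _ _ hAm hA ?_
          have : (SC V u v).subgroupOf (Sst (u := u) (v := v) hX.act v) = ⊥ := by
            rw [hbot]
            exact Subgroup.bot_subgroupOf _
          rw [this]
          exact hFF.2 _ hB
        · obtain ⟨⟨x, hx⟩, hx0⟩ := Subgroup.ne_bot_iff_exists_ne_one.1 hbot
          have hx1 : x ≠ 1 := fun h' => hx0 (Subtype.ext h')
          rcases halt x hx hx1 with h1 | h1
          · exact ham V _ _ _ hAm.symm hB (ff_side hFF hA hAE hE hV hx hx1 h1)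
          · exact ham V _ _ _ hAm hA (ff_side hFF hB hBE hE hV hx hx1 h1)
      · -- HNN
        let A := Sst (u := u) (v := v) hX.act u
        let C : Subgroup V := A ⊓ (SC V u v).comap (MulAut.conj t).toMonoidHom
        have hC : ∀ c : V, c ∈ C ↔ c ∈ A ∧ t * c * t⁻¹ ∈ SC V u v := by
          intro c
          simp only [C, Subgroup.mem_inf, Subgroup.mem_comap, MulEquiv.coe_toMonoidHom,
            MulAut.conj_apply]
        have hH := hup.2 V W X u v hX.act hX.tree hX.adj hX.inv t ht C hC
        have htB : ∀ b : V, b ∈ Sst (u := u) (v := v) hX.act v ↔ t⁻¹ * b * t ∈ A := by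
          intro b
          rw [mem_Sst]
          show _ ↔ t⁻¹ * b * t ∈ Sst (u := u) (v := v) hX.act u
          rw [mem_Sst]
          constructor
          · intro h
            have h1 : Rch V X u v (b • t • u) (t • u) := (ht.smul hX.act b).trans (h.trans ht.symm)
            have h2 := h1.smul hX.act t⁻¹
            rw [inv_smul_smul] at h2
            rw [mul_smul, mul_smul]
            exact h2
          · intro h
            have h1 := h.smul hX.act t
            rw [mul_smul, mul_smul, smul_inv_smul] at h1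
            exact ((ht.smul hX.act b).symm.trans h1).trans ht
        have e1 : ∀ c : V, t * (t⁻¹ * c * t) * t⁻¹ = c := fun c => by group
        have e2 : ∀ c : V, t⁻¹ * (t * c * t⁻¹) * t = c := fun c => by group
        have hCE : ∀ c ∈ SC V u v, t⁻¹ * c * t ∈ C := by
          intro c hc
          rw [hC, e1]
          exact ⟨(htB c).1 (hBE hc), hc⟩
        have hCfin : Finite C := by
          refine Finite.of_injective (β := SC V u v) (fun c => ⟨t * c * t⁻¹, ((hC c).1 c.2).2⟩) ?_
          intro a b hab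
          have h1 := Subtype.ext_iff.1 hab
          apply Subtype.ext
          have h2 : t * (a : V) * t⁻¹ = t * (b : V) * t⁻¹ := h1
          rw [← e2 a, h2, e2]
        by_cases hbot : SC V u v = ⊥
        · refine hn_bot hcl hFF hhn hH hA ?_
          rw [eq_bot_iff]
          intro c hc
          have h1 := ((hC c).1 hc).2
          rw [hbot, Subgroup.mem_bot] at h1
          exact conj_eq_one_iff.1 h1
        · obtain ⟨⟨x, hx⟩, hx0⟩ := Subgroup.ne_bot_iff_exists_ne_one.1 hbot
          have hx1 : x ≠ 1 := fun h' => hx0 (Subtype.ext h')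
          rcases halt x hx hx1 with h1 | h1
          · have hH' : Hn V A (SC V u v) t⁻¹ := hH.symm (by
              intro c
              constructor
              · exact hCE c
              · intro h
                have := ((hC _).1 h).2
                rwa [e1] at this)
            exact hn_case hTC hFF hhn hV hH' hA hE hx hx1 h1
          · refine hn_case hTC hFF hhn hV hH hA hCfin (hCE x hx) ?_ ?_
            · intro h
              apply hx1
              rw [← e1 x, h]
              group
            · intro a ha hax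
              rw [hC]
              refine ⟨ha, h1 _ ?_ ?_⟩
              · rw [htB, e2]
                exact ha
              · have : t * a * t⁻¹ * x = t * (a * (t⁻¹ * x * t)) * t⁻¹ := by group
                rw [this, hax]
                group
  intro V _ T _ _ α r hV
  exact main r V T α hV

end Pool.Agent.VF
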