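import Pool.Agent.Lib.MP_305fdd_al.VF.Defs

/-!
# MP_305fdd_al, block VF, part (I): groups in the class `VC` are free products of cyclic groups
(definitions and statements of the pieces)
-/

set_option autoImplicit false

namespace Pool.Agent.VF

open Monoid Pool.Agent.MP_305fdd_al Pool.Agent.Lib.MP_305fdd_al Pool.Agent.FrT

/-- `V` is a free product of finitely many cyclic groups. -/
def IsFP (V : Type) [Group V] : Prop := ∃ (n : ℕ) (m : Fin n → ℕ), Nonempty (V ≃* FP m)

/-- `S` is one of the factors in a decomposition of `B` as a free product of finitely many cyclic groups. -/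
def FF (B : Type) [Group B] (S : Subgroup B) : Prop :=
  ∃ (n : ℕ) (m : Fin n → ℕ) (e : FP m ≃* B) (i : Fin n),
    ∀ y : B, y ∈ S ↔ ∃ c : Multiplicative (ZMod (m i)), y = e (CoprodI.of c)

/-- `V = A *_E B`, by the universal property. -/
structure Am (V : Type) [Group V] (A B E : Subgroup V) : Prop where
  le1 : E ≤ A
  le2 : E ≤ B
  gen : A ⊔ B = ⊤
  ext : ∀ (K : Type) [Group K] (f : A →* K) (g : B →* K),
    (∀ (x : V) (hx : x ∈ E), f ⟨x, le1 hx⟩ = g ⟨x, le2 hx⟩) →
      ∃ h : V →* K, (∀ a : A, h a = f a) ∧ ∀ b : B, h b = g b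

/-- `V` is the HNN extension of `A` with stable letter `t` and `t C t⁻¹ ≤ A`, by the universal property. -/
structure Hn (V : Type) [Group V] (A C : Subgroup V) (t : V) : Prop where
  le1 : C ≤ A
  le2 : ∀ c ∈ C, t * c * t⁻¹ ∈ A
  gen : A ⊔ Subgroup.zpowers t = ⊤
  ext : ∀ (K : Type) [Group K] (f : A →* K) (k : K),
    (∀ (c : V) (hc : c ∈ C), k * f ⟨c, le1 hc⟩ * k⁻¹ = f ⟨t * c * t⁻¹, le2 c hc⟩) →
      ∃ h : V →* K, (∀ a : A, h a = f a) ∧ h t = k

/-- [VF I1] **Torsion elements of free products are conjugate into a factor.**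

PROOF (cyclic reduction).  Induction on the length of the reduced word of `x` (`Monoid.CoprodI.Word`,
`NeWord`, Mathlib `GroupTheory/CoprodI`).  `x ≠ 1`, so the word is not empty; let `i` be the index of its
first letter, `j` the index of its last letter.  Length 1: `x = of y`.  If `i ≠ j` then `x = w.prod` for
`w : NeWord G i j`, and `x ^ (n + 1)` is the product of `w ⋯ w` (`NeWord.append` with `j ≠ i`), a nonempty
reduced word, so `x ^ (n + 1) ≠ 1` for all `n`: not a torsion element.  If `i = j` and the length is `≥ 2`,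
then it is `≥ 3`, `x = of a * x' * of b` with `a b : G i` and `x'` a nonempty reduced word whose first letter
is not in `G i`; `of a⁻¹ * x * of a = x' * of (b * a)` is torsion, not `1`, and has a shorter reduced word
(length of `x'`, or length of `x'` plus one): use the induction hypothesis. -/
def S_TC : Prop :=
  ∀ (ι : Type) (G : ι → Type) [∀ i, Group (G i)] (x : CoprodI G), x ≠ 1 → IsOfFinOrder x →
    ∃ (i : ι) (y : G i) (g : CoprodI G), x = g * CoprodI.of y * g⁻¹

/-- [VF I2] **The factors of a free product are malnormal** (only the part with one index).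

PROOF.  Let `w` be the reduced word of `g⁻¹` and split off its first letter if it is in `G i`
(`CoprodI.Word.equivPair i`): `g⁻¹ = of a * v` where `v` is `1` or the product of a nonempty reduced word
with first letter not in `G i`.  If `v = 1` then `g = of a⁻¹`.  Otherwise `v = w'.prod`, `w' : NeWord G k l`,
`k ≠ i`, and `g * of y * g⁻¹ = v⁻¹ * of (a⁻¹ * y * a) * v` is the product of the `NeWord`
`(w'.inv.append _ (singleton (a⁻¹ * y * a) _)).append _ w'`, whose list has length `≥ 3`; it is also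
`of y'`, whose word has length `≤ 1`: contradiction (`Word.equiv`, uniqueness of reduced words). -/
def S_CF : Prop :=
  ∀ (ι : Type) (G : ι → Type) [∀ i, Group (G i)] (i : ι) (y y' : G i) (g : CoprodI G), y ≠ 1 →
    g * CoprodI.of y * g⁻¹ = CoprodI.of y' → ∃ c : G i, g = CoprodI.of c

/-- [VF I3] **Centralisers of torsion elements are factors.**

PROOF.  Second part: `m' := Fin.cons 1 m : Fin (n + 1) → ℕ`, `i = 0`: the factor `0` is `Multiplicative
(ZMod 1)`, trivial; `coprodI_equiv` (`Basic.lean`) with `e = Fin.succ` gives `FP m ≃* FP m'`.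
First part: let `e : FP m ≃* B`.  By `S_TC` for `e.symm x`: `e.symm x = g * of y * g⁻¹`, `y : Multiplicative
(ZMod (m i))`, `y ≠ 1` as `x ≠ 1`.  Put `e' := (MulAut.conj g).trans e`, that is `e' z = e (g * z * g⁻¹)`; so
`x = e' (of y)`.  If `b` commutes with `x` then `z := e'.symm b` commutes with `of y`, so
`z * of y * z⁻¹ = of y` and `S_CF` gives `z = of c`.  Conversely `e' (of c)` commutes with `e' (of y)` because
the factor is commutative.  (`Subgroup.mem_centralizer_singleton_iff`.) -/
def S_FF : Prop :=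
  (∀ (B : Type) [Group B], IsFP B → ∀ x : B, x ≠ 1 → IsOfFinOrder x →
    FF B (Subgroup.centralizer ({x} : Set B))) ∧
  (∀ (B : Type) [Group B], IsFP B → FF B ⊥)

/-- [VF I4] **Splitting off a factor; closure properties of `IsFP`.**

PROOF.  (1) `CoprodI.lift` and `Coprod.lift` in the two directions (`s (of x)`, `x : G k`: `inl` if `k = i`,
else `inr (of x)`; use `if h : k = i then (h ▸ ..) else ..` or `Function.update`-free casts), the
composites are the identity on the factors.  (2) `Coprod (FP m) (FP m') ≃* FP (Sum.elim m m')` (lifts in both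
directions, or `coprodI_flatten` in `Basic.lean`), then `FP_fin` of `Cyclic.lean`.  (3) `FP_fin` with
`coprodI_congr` and `m i = 0` (`Multiplicative ℤ`) for `n = 1`.  (4) finite cyclic groups:
`Multiplicative (ZMod (Nat.card C)) ≃* C` (`zmodCyclicMulEquiv` or `mulEquivOfCyclicCardEq`), `n = 1`. -/
def S_cl : Prop :=
  (∀ (ι : Type) (G : ι → Type) [∀ i, Group (G i)] (i : ι),
    ∃ s : CoprodI G ≃* Coprod (G i) (CoprodI fun k : {k : ι // k ≠ i} => G k),
      (∀ x : G i, s (CoprodI.of x) = Coprod.inl x) ∧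
      ∀ (k : {k : ι // k ≠ i}) (x : G k), s (CoprodI.of x) =
        Coprod.inr (CoprodI.of (M := fun k : {k : ι // k ≠ i} => G k) (i := k) x)) ∧
  (∀ (A B : Type) [Group A] [Group B], IsFP A → IsFP B → IsFP (Coprod A B)) ∧
  (∀ (n : ℕ) (m : Fin n → ℕ) (i : Fin n), IsFP (FP fun k : {k : Fin n // k ≠ i} => m k)) ∧
  IsFP (Multiplicative ℤ) ∧
  (∀ (C : Type) [Group C] [Finite C], IsCyclic C → IsFP C)

/-- [VF I5] **Amalgam, the edge group is a factor of one side.**

PROOF.  `FF` gives `e : FP m ≃* B` and `i` with `E` (in `B`) `= {e (of c)}`.  With (1) of `S_cl`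
(`s`, `i`) put `B' := FP fun k : {k // k ≠ i} => m k`; `p : B' →* B`, `p = e ∘ s.symm ∘ inr`.
Claim `Coprod A B' ≃* V`; then (2), (3) of `S_cl` finish.  `F := Coprod.lift A.subtype (B.subtype.comp p) :
Coprod A B' →* V`.  Inverse: on `A` take `inl`; on `B` take `g := (Coprod.lift j inr).comp (s ∘ e.symm)`,
`j : Multiplicative (ZMod (m i)) →* Coprod A B'`, `j c = inl ⟨e (of c), _⟩` (in `A`, as `E ≤ A`).  For
`x ∈ E`, `x = e (of c)`, `g x = j c = inl x`: so `ext` of `Am` gives `H : V →* Coprod A B'`.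
`F ∘ H = id`: check on `A` and on `B` (`gen`; on `B` check on `e (s.symm (inl c))` and `e (s.symm (inr z))`).
`H ∘ F = id`: check on `inl a` and `inr z` (`Coprod.hom_ext`). -/
def S_am : Prop :=
  ∀ (V : Type) [Group V] (A B E : Subgroup V), Am V A B E → IsFP A → FF B (E.subgroupOf B) → IsFP V

/-- [VF I6] **HNN extension, the edge group is a factor, its conjugate lies in another factor.**

PROOF.  With (1) of `S_cl` put `A' := FP fun k : {k // k ≠ i} => m k`, `p := e ∘ s.symm ∘ inr : A' →* A`.
Claim: `V ≃* Coprod A' (Multiplicative ℤ)`; then (2), (3), (4) of `S_cl` finish.  Let `τ := inr (ofAdd 1)`.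
`F : Coprod A' (Multiplicative ℤ) →* V`, `F = p` on `A'`, `F τ = a * t` (`zpowersHom`).  For
`c : Multiplicative (ZMod (m i))` the element `a * (t * e (of c) * t⁻¹) * a⁻¹` is `e (of d)` for a unique
`d =: σ c` in the factor `j`, `σ` is a homomorphism (`CoprodI.of` is injective: `CoprodI.of_injective`).
Inverse: on `A` take `f := (Coprod.lift f₁ inl).comp (s ∘ e.symm)`, `f₁ c = τ⁻¹ * inl (of (σ c)) * τ` (the
factor `j ≠ i` of `A'`); `k := (f a)⁻¹ * τ`.  Relation of `ext` in `Hn` for `x = e (of c) ∈ C`: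
`k * f x * k⁻¹ = (f a)⁻¹ * inl (of (σ c)) * f a` and `t * x * t⁻¹ = a⁻¹ * e (of (σ c)) * a`, so
`f (t * x * t⁻¹) = (f a)⁻¹ * inl (of (σ c)) * f a`.  So there is `H : V →* Coprod A' (Multiplicative ℤ)` with
`H = f` on `A`, `H t = k`.  `F ∘ H = id` on `A` (on `e (of c)`, factor `i`: `F (τ⁻¹ * inl (of (σ c)) * τ) =
t⁻¹ * a⁻¹ * e (of (σ c)) * a * t = e (of c)`; on the other factors clear) and on `t`:
`F ((f a)⁻¹ * τ) = a⁻¹ * (a * t) = t`; `gen`.  `H ∘ F = id` on `inl z` (clear) and on `τ`: `H (a * t) = f a *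
(f a)⁻¹ * τ`. -/
def S_hn : Prop :=
  ∀ (V : Type) [Group V] (A C : Subgroup V) (t : V), Hn V A C t →
    ∀ (n : ℕ) (m : Fin n → ℕ) (e : FP m ≃* A) (i j : Fin n), i ≠ j →
      (∀ y : A, (y : V) ∈ C ↔ ∃ c : Multiplicative (ZMod (m i)), y = e (CoprodI.of c)) →
      ∀ a : A, (∀ c ∈ C, ∃ d : Multiplicative (ZMod (m j)),
        (a : V) * (t * c * t⁻¹) * (a : V)⁻¹ = e (CoprodI.of d)) → IsFP V

/-- [VF I7] **Ping-pong at an edge.**

PROOF.  `D` := the set of the vertices `y` reachable from `v` in `X` without the single edge `s(u, v)`,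
`U` := the same with `u`.  `X` is a tree: `U` and `D` are disjoint and cover `W` (`SimpleGraph.isBridge` /
`isAcyclic_iff_forall_adj_isBridge`; a path from `u` to `y` either avoids the edge or passes it first).
`s(u,v)` is in `Orb V u v`, so `Rch V X u v x y` implies that `x`, `y` are on the same side.
(a) `a ∈ Sst u`, `a ∉ SC` gives `a D ⊆ U` and `u ∉ a D`.  The edge `s(a u, a v)` is different from
`s(u, v)`: otherwise `a` fixes `u` and `v` (then `a ∈ SC`) or exchanges them (`inv`).  `a u` is `Rch`-related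
to `u`, so `a u ∈ U`, and `u` is connected to `a u` without the orbit, in particular without `s(a u, a v)`:
so `u ∈ a U` (`a U` = set of vertices connected to `a u` without `s(a u, a v)`), hence `u ∉ a D` (disjoint).
The edge `s(u, v)` is different from `s(a u, a v)`, so also `v ∈ a U`.  `a v ∈ U` (edge `s(a u, a v)` is not
`s(u, v)`).  For `y ∈ a D`: a walk from `a v` to `y` inside `a D` (avoiding `s(a u, a v)`) does not contain
`u` (all its vertices are in `a D`, `u ∈ a U`), so it does not use `s(u, v)`: `y ∈ U`.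
(b) Symmetrically (exchange `u` and `v`) `b ∈ Sst v`, `b ∉ SC` gives `b U ⊆ D`.
So `(a * b) U ⊆ a D ⊆ U`, and for all `n`: `(a * b) ^ (n + 1)` maps `U` into `a D`, which does not contain
`u ∈ U`: so `(a * b) ^ (n + 1) ≠ 1` for all `n`. -/
def S_ping : Prop :=
  ∀ (V : Type) [Group V] (W : Type) [MulAction V W] (X : SimpleGraph W) (u v : W),
    X.IsTree → (∀ (g : V) (x y : W), X.Adj x y → X.Adj (g • x) (g • y)) → X.Adj u v →
    (∀ g : V, ¬ (g • u = v ∧ g • v = u)) →
    ∀ a b : V, Rch V X u v (a • u) u → a ∉ SC V u v → Rch V X u v (b • v) v → b ∉ SC V u v →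
      ¬ IsOfFinOrder (a * b)

/-- [VF I8] **The universal properties from Bass-Serre theory.**

PROOF.  First part: `FrT.amalg` (`Fr/T/BS.lean`) for `S = ![Sst u, Sst v]`: `PushoutI.lift` is bijective.
`gen`: its range is contained in `A ⊔ B` (`PushoutI.induction_on`).  `ext`: from `f`, `g` one gets
`PushoutI.lift (Fin.cases f ..) ..: PushoutI φ →* K` (with base map `f` restricted to `SC`); compose with
the inverse of the bijection.  Second part: `FrT.hnn_data` and `FrT.hnn` (`Fr/T/BSH.lean`): here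
`C := {c | c ∈ Sst u, t c t⁻¹ ∈ SC}` (given as `hC`); `HNNExtension.lift f k`; `gen` by
`HNNExtension.induction_on`. -/
def S_up : Prop :=
  (∀ (V : Type) [Group V] (W : Type) [MulAction V W] (X : SimpleGraph W) (u v : W)
    (hact : ∀ (g : V) (x y : W), X.Adj x y → X.Adj (g • x) (g • y)),
    X.IsTree → X.Adj u v → (∀ g : V, ¬ (g • u = v ∧ g • v = u)) →
    (∀ g : V, ¬ Rch V X u v (g • u) v) →
    Am V (Sst (u := u) (v := v) hact u) (Sst (u := u) (v := v) hact v) (SC V u v)) ∧
  (∀ (V : Type) [Group V] (W : Type) [MulAction V W] (X : SimpleGraph W) (u v : W)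
    (hact : ∀ (g : V) (x y : W), X.Adj x y → X.Adj (g • x) (g • y)),
    X.IsTree → X.Adj u v → (∀ g : V, ¬ (g • u = v ∧ g • v = u)) →
    ∀ t : V, Rch V X u v (t • u) v → ∀ C : Subgroup V,
      (∀ c : V, c ∈ C ↔ c ∈ Sst (u := u) (v := v) hact u ∧ t * c * t⁻¹ ∈ SC V u v) →
      Hn V (Sst (u := u) (v := v) hact u) C t)

end Pool.Agent.VF
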